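import Mathlib
import Pool.Agent.W221.ABC.Main7

/-!
# Few abc-triples with `T ≥ 0`

The abc-triples with `c ≤ X` and `T(a, b, c) ≥ 0`, in particular those with `T(a, b, c) ≥ 1`, that
is `rad(abc) ≤ c ^ (1 - 1 / √(log c))`, number `O(X ^ (15 / 28 + ε))`.
-/

set_option autoImplicit false

namespace Pool.Agent.Results.MP_4ab349_nt.ExceptionalSet

/-- the product of the distinct primes dividing `n` -/
def rad (n : ℕ) : ℕ := ∏ p ∈ n.primeFactors, p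

/-- `T(a, b, c) = log (c / rad(abc)) / √(log c)` -/
noncomputable def T (a b c : ℕ) : ℝ :=
  Real.log ((c : ℝ) / (rad (a * b * c) : ℝ)) / Real.sqrt (Real.log c)

/-- the abc-triples `(a, b, a + b)` with `a + b ≤ X` and `T ≥ 0`, given by the pairs `(a, b)` -/
def exceptions (X : ℝ) : Set (ℕ × ℕ) :=
  {p | 0 < p.1 ∧ 0 < p.2 ∧ p.1.Coprime p.2 ∧ ((p.1 + p.2 : ℕ) : ℝ) ≤ X ∧
    0 ≤ T p.1 p.2 (p.1 + p.2)}

lemma rad_pos (n : ℕ) : 0 < rad n :=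
  Finset.prod_pos fun _ hp => (Nat.prime_of_mem_primeFactors hp).pos

lemma rad_le_of_T {a b : ℕ} (ha : 0 < a) (hb : 0 < b) (h : 0 ≤ T a b (a + b)) :
    (rad (a * b * (a + b)) : ℝ) ≤ ((a + b : ℕ) : ℝ) := by
  have hr : (0 : ℝ) < rad (a * b * (a + b)) := by exact_mod_cast rad_pos _
  have hc : (1 : ℝ) < ((a + b : ℕ) : ℝ) := by
    have : 1 < a + b := by omega
    exact_mod_cast this
  have hl : 0 < Real.log ((a + b : ℕ) : ℝ) := Real.log_pos hc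
  have hs : 0 < Real.sqrt (Real.log ((a + b : ℕ) : ℝ)) := Real.sqrt_pos.mpr hl
  by_contra hcon
  push Not at hcon
  have h1 : ((a + b : ℕ) : ℝ) / (rad (a * b * (a + b)) : ℝ) < 1 := by
    rw [div_lt_one hr]
    exact hcon
  have h2 : Real.log (((a + b : ℕ) : ℝ) / (rad (a * b * (a + b)) : ℝ)) < 0 :=
    Real.log_neg (div_pos (by linarith) hr) h1
  have h3 : T a b (a + b) < 0 := div_neg_of_neg_of_pos h2 hs
  linarith

/-- For every `ε > 0` there is `C` such that for `X ≥ 1` at most `C X ^ (15 / 28 + ε)` abc-triples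
with `c ≤ X` satisfy `T(a, b, c) ≥ 0`. -/
theorem result : ∀ ε : ℝ, 0 < ε → ∃ C : ℝ, ∀ X : ℝ, 1 ≤ X →
    (exceptions X).Finite ∧ ((exceptions X).ncard : ℝ) ≤ C * X ^ (15 / 28 + ε : ℝ) := by
  intro ε hε
  obtain ⟨C, h⟩ := Pool.Agent.W221.ABC7.count_FxB 1 1 ε one_pos hε
  refine ⟨|C|, fun X hX => ?_⟩
  have hn : 1 ≤ ⌊X⌋₊ := Nat.le_floor (by exact_mod_cast hX)
  have hsub : (fun p : ℕ × ℕ => ((p.1, p.2, p.1 + p.2) : ℕ × ℕ × ℕ)) '' exceptions X ⊆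
      Pool.Agent.W221.ABC7.ExcB 1 1 ⌊X⌋₊ := by
    rintro _ ⟨⟨a, b⟩, ⟨h1, h2, h3, h4, h5⟩, rfl⟩
    refine ⟨h1, h2, h3, rfl, Nat.le_floor h4, ?_⟩
    have h6 := rad_le_of_T h1 h2 h5
    rw [Real.rpow_one, one_mul]
    exact h6
  have hinj : Function.Injective
      (fun p : ℕ × ℕ => ((p.1, p.2, p.1 + p.2) : ℕ × ℕ × ℕ)) := by
    rintro ⟨a, b⟩ ⟨c, d⟩ hh
    simp only [Prod.mk.injEq] at hh
    exact Prod.ext hh.1 hh.2.1
  have hfinE := Pool.Agent.W221.ABC7.excB_finite 1 1 ⌊X⌋₊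
  have hfin : (exceptions X).Finite :=
    Set.Finite.of_finite_image (hfinE.subset hsub) hinj.injOn
  refine ⟨hfin, ?_⟩
  have h7 : (exceptions X).ncard ≤ (Pool.Agent.W221.ABC7.ExcB 1 1 ⌊X⌋₊).ncard := by
    rw [← Set.ncard_image_of_injective (exceptions X) hinj]
    exact Set.ncard_le_ncard hsub hfinE
  have h8 := h ⌊X⌋₊ hn
  have hFx : Pool.Agent.W221.ABC7.Fx 1 = 15 / 28 := by
    unfold Pool.Agent.W221.ABC7.Fx
    norm_num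
  rw [hFx] at h8
  have hX0 : (0 : ℝ) < X := by linarith
  have h9 : ((⌊X⌋₊ : ℕ) : ℝ) ^ (15 / 28 + ε : ℝ) ≤ X ^ (15 / 28 + ε : ℝ) :=
    Real.rpow_le_rpow (Nat.cast_nonneg _) (Nat.floor_le hX0.le) (by positivity)
  have h10 : (0 : ℝ) ≤ ((⌊X⌋₊ : ℕ) : ℝ) ^ (15 / 28 + ε : ℝ) :=
    Real.rpow_nonneg (Nat.cast_nonneg _) _
  calc ((exceptions X).ncard : ℝ) ≤ ((Pool.Agent.W221.ABC7.ExcB 1 1 ⌊X⌋₊).ncard : ℝ) := by
        exact_mod_cast h7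
    _ ≤ C * ((⌊X⌋₊ : ℕ) : ℝ) ^ (15 / 28 + ε : ℝ) := h8
    _ ≤ |C| * ((⌊X⌋₊ : ℕ) : ℝ) ^ (15 / 28 + ε : ℝ) :=
        mul_le_mul_of_nonneg_right (le_abs_self C) h10
    _ ≤ |C| * X ^ (15 / 28 + ε : ℝ) := mul_le_mul_of_nonneg_left h9 (abs_nonneg C)

end Pool.Agent.Results.MP_4ab349_nt.ExceptionalSet
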