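import Mathlib
import Pool.Agent.W16.FX.Main

/-!
# abc-triples with a prescribed term and `T` bounded below

For fixed `a ≥ 1` and every real `K`, the number of `b ≤ X` coprime to `a` with
`T(a, b, a + b) ≥ -K` is `O(X ^ (7 / 16 + ε))`.
-/

set_option autoImplicit false

namespace Pool.Agent.Results.MP_4ab349_nt.FixedTerm

/-- the product of the distinct primes dividing `n` -/
def rad (n : ℕ) : ℕ := ∏ p ∈ n.primeFactors, p

/-- `T(a, b, c) = log (c / rad(abc)) / √(log c)` -/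
noncomputable def T (a b c : ℕ) : ℝ :=
  Real.log ((c : ℝ) / (rad (a * b * c) : ℝ)) / Real.sqrt (Real.log c)

lemma rad_pos (n : ℕ) : 0 < rad n :=
  Finset.prod_pos fun _ hp => (Nat.prime_of_mem_primeFactors hp).pos

/-- if `T ≥ -K` and `c` is large then `rad ≤ c ^ (1 + η)` -/
lemma rad_le_of_T {a b : ℕ} (ha : 0 < a) (hb : 0 < b) {K η : ℝ} (hη : 0 < η)
    (h : -K ≤ T a b (a + b)) (hbig : Real.exp ((K / η) ^ 2) ≤ ((a + b : ℕ) : ℝ)) :
    (rad (a * b * (a + b)) : ℝ) ≤ ((a + b : ℕ) : ℝ) ^ (1 + η) := by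
  have hr : (0 : ℝ) < rad (a * b * (a + b)) := by exact_mod_cast rad_pos _
  have hc : (1 : ℝ) < ((a + b : ℕ) : ℝ) := by
    have : 1 < a + b := by omega
    exact_mod_cast this
  have hc0 : (0 : ℝ) < ((a + b : ℕ) : ℝ) := by linarith
  have hl : 0 < Real.log ((a + b : ℕ) : ℝ) := Real.log_pos hc
  have hs : 0 < Real.sqrt (Real.log ((a + b : ℕ) : ℝ)) := Real.sqrt_pos.mpr hl
  set s := Real.sqrt (Real.log ((a + b : ℕ) : ℝ)) with hsdef
  have hss : s * s = Real.log ((a + b : ℕ) : ℝ) := Real.mul_self_sqrt hl.le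
  have h1 : -K * s ≤ Real.log (((a + b : ℕ) : ℝ) / (rad (a * b * (a + b)) : ℝ)) := by
    have : -K ≤ Real.log (((a + b : ℕ) : ℝ) / (rad (a * b * (a + b)) : ℝ)) / s := h
    rwa [le_div_iff₀ hs] at this
  rw [Real.log_div hc0.ne' hr.ne'] at h1
  have h2 : (K / η) ^ 2 ≤ Real.log ((a + b : ℕ) : ℝ) := by
    rwa [Real.le_log_iff_exp_le hc0]
  have h3 : K / η ≤ s := Real.le_sqrt_of_sq_le h2
  have h4 : K ≤ η * s := by
    rw [div_le_iff₀ hη] at h3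
    linarith
  have h5 : K * s ≤ η * Real.log ((a + b : ℕ) : ℝ) := by
    rw [← hss, ← mul_assoc]
    exact mul_le_mul_of_nonneg_right h4 hs.le
  have h6 : Real.log (rad (a * b * (a + b)) : ℝ) ≤
      Real.log (((a + b : ℕ) : ℝ) ^ (1 + η)) := by
    rw [Real.log_rpow hc0]
    linarith
  exact (Real.log_le_log_iff hr (Real.rpow_pos_of_pos hc0 _)).mp h6

/-- Let `a ≥ 1` be fixed. For all real `K` and `ε > 0` there is `C` such that for every `X ≥ 1` the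
number of the `b` with `1 ≤ b ≤ X`, `gcd(a, b) = 1` and `T(a, b, a + b) ≥ -K` is at most
`C X ^ (7 / 16 + ε)`. -/
theorem result : ∀ a : ℕ, 1 ≤ a → ∀ K ε : ℝ, 0 < ε → ∃ C : ℝ, ∀ X : ℕ, 1 ≤ X →
    (({b : ℕ | 1 ≤ b ∧ b ≤ X ∧ Nat.Coprime a b ∧ -K ≤ T a b (a + b)}.ncard : ℕ) : ℝ) ≤
      C * (X : ℝ) ^ (7 / 16 + ε : ℝ) := by
  intro a ha K ε hε
  obtain ⟨D, hD, h⟩ := Pool.Agent.W16.FX.main a ha (ε / 2) (by linarith)
  set K' : ℝ := max K 0 with hK'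
  have hK'0 : 0 ≤ K' := le_max_right _ _
  set η : ℝ := min (2 / 5 * ε) 1 with hη
  have hη0 : 0 < η := lt_min (by linarith) one_pos
  have hη1 : η ≤ 1 := min_le_right _ _
  have hη2 : η ≤ 2 / 5 * ε := min_le_left _ _
  set B : ℕ := ⌈Real.exp ((K' / η) ^ 2)⌉₊ with hB
  refine ⟨B + D, fun X hX => ?_⟩
  have hX1 : (1 : ℝ) ≤ X := by exact_mod_cast hX
  set S : Set ℕ := {b : ℕ | 1 ≤ b ∧ b ≤ X ∧ Nat.Coprime a b ∧ -K ≤ T a b (a + b)} with hS
  set S1 : Set ℕ := {b : ℕ | 1 ≤ b ∧ b ≤ X ∧ Nat.Coprime a b ∧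
          ((∏ p ∈ (a * b * (a + b)).primeFactors, p : ℕ) : ℝ) ≤
            ((a + b : ℕ) : ℝ) ^ (1 + η)} with hS1
  have hfin1 : S1.Finite := (Set.finite_Iic X).subset fun b hb => hb.2.1
  have hsub : S ⊆ (Finset.range B : Set ℕ) ∪ S1 := by
    intro b hb
    obtain ⟨h1, h2, h3, h4⟩ := hb
    by_cases hbB : b < B
    · exact Or.inl (by simpa using hbB)
    · right
      refine ⟨h1, h2, h3, ?_⟩
      have h5 : Real.exp ((K' / η) ^ 2) ≤ ((a + b : ℕ) : ℝ) := by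
        refine (Nat.le_ceil _).trans ?_
        have : B ≤ a + b := by omega
        exact_mod_cast this
      have h6 : -K' ≤ T a b (a + b) := (neg_le_neg (le_max_left K 0)).trans h4
      exact rad_le_of_T ha h1 hη0 h6 h5
  have hfinU : ((Finset.range B : Set ℕ) ∪ S1).Finite :=
    (Finset.finite_toSet _).union hfin1
  have h1 : S.ncard ≤ B + S1.ncard := by
    refine (Set.ncard_le_ncard hsub hfinU).trans ((Set.ncard_union_le _ _).trans ?_)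
    rw [Set.ncard_coe_finset, Finset.card_range]
  have h2 := h η hη0.le hη1 X hX
  have h3 : (X : ℝ) ^ (7 / 16 + 5 / 4 * η + ε / 2 : ℝ) ≤ (X : ℝ) ^ (7 / 16 + ε : ℝ) :=
    Real.rpow_le_rpow_of_exponent_le hX1 (by linarith)
  have h4 : (1 : ℝ) ≤ (X : ℝ) ^ (7 / 16 + ε : ℝ) := Real.one_le_rpow hX1 (by linarith)
  have h5 : ((S.ncard : ℕ) : ℝ) ≤ B + S1.ncard := by exact_mod_cast h1
  have h6 : (B : ℝ) ≤ B * (X : ℝ) ^ (7 / 16 + ε : ℝ) := by
    have : (0 : ℝ) ≤ B := Nat.cast_nonneg B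
    nlinarith
  have h7 : D * (X : ℝ) ^ (7 / 16 + 5 / 4 * η + ε / 2 : ℝ) ≤
      D * (X : ℝ) ^ (7 / 16 + ε : ℝ) := mul_le_mul_of_nonneg_left h3 hD.le
  have h8 : (S1.ncard : ℝ) ≤ D * (X : ℝ) ^ (7 / 16 + 5 / 4 * η + ε / 2 : ℝ) := h2
  rw [add_mul]
  linarith

end Pool.Agent.Results.MP_4ab349_nt.FixedTerm
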